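import Pool.Agent.Lib.MP_f4bd1c_an.Semigroups

/-!
Property (F_*) for elementary amenable groups and semigroups.

The question asks whether every semitopological semigroup `S` such that `LUC(S)` has a left
invariant mean has the fixed point property (F_*). We prove (F_*), with a nonexpansive retraction
onto the set of common fixed points, for all elementary amenable groups (in any topology), for the
larger class of elementary left amenable semigroups, and for every semitopological semigroup which
has a left ideal contained in the closure of a homomorphic image of such a (discrete) semigroup.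
-/

set_option autoImplicit false

namespace Pool.Agent.Results.MP_f4bd1c_an.ElementaryAmenable

open FStarLib

universe u v w

/-- Elementary amenable groups: the smallest class of groups which contains the finite groups and
the commutative groups and is closed under subgroups, quotients (images under surjective
homomorphisms), extensions and directed unions. -/
inductive IsElementaryAmenable : (G : Type u) → [Group G] → Prop
  | of_finite (G : Type u) [Group G] [Finite G] : IsElementaryAmenable G
  | of_commute (G : Type u) [Group G] (h : ∀ a b : G, a * b = b * a) : IsElementaryAmenable G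
  | subgroup (G : Type u) [Group G] (H : Subgroup G) (h : IsElementaryAmenable G) :
      IsElementaryAmenable H
  | quotient (G Q : Type u) [Group G] [Group Q] (f : G →* Q) (hf : Function.Surjective f)
      (h : IsElementaryAmenable G) : IsElementaryAmenable Q
  | extension (G : Type u) [Group G] (N : Subgroup G) [N.Normal] (hN : IsElementaryAmenable N)
      (hQ : IsElementaryAmenable (G ⧸ N)) : IsElementaryAmenable G
  | union (G : Type u) [Group G] (𝓢 : Set (Subgroup G)) (hne : 𝓢.Nonempty)
      (hdir : DirectedOn (· ≤ ·) 𝓢) (hcov : ∀ g, ∃ K ∈ 𝓢, g ∈ K)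
      (h : ∀ K ∈ 𝓢, IsElementaryAmenable K) : IsElementaryAmenable G

/-- Elementary left amenable semigroups: the smallest class of semigroups which contains the
elementary amenable groups and the commutative semigroups and is closed under
* images under surjective homomorphisms,
* passing from a nonempty left ideal to the semigroup,
* directed unions of subsemigroups,
* extensions: if `N` is a subsemigroup of `S` with `N s ⊆ s N` for all `s`, if `π : S → Q` is a
  surjective homomorphism such that `s N` meets `t N` whenever `π s = π t`, and if `N` and `Q` are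
  in the class, then `S` is in the class. -/
inductive IsElementaryLeftAmenable : (S : Type u) → [Semigroup S] → Prop
  | of_group (G : Type u) [Group G] (h : IsElementaryAmenable G) : IsElementaryLeftAmenable G
  | of_commute (S : Type u) [Semigroup S] (h : ∀ a b : S, a * b = b * a) :
      IsElementaryLeftAmenable S
  | image (S Q : Type u) [Semigroup S] [Semigroup Q] (f : S →ₙ* Q) (hf : Function.Surjective f)
      (h : IsElementaryLeftAmenable S) : IsElementaryLeftAmenable Q
  | leftIdeal (S : Type u) [Semigroup S] (I : Subsemigroup S) (hI : (I : Set S).Nonempty)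
      (hl : ∀ s : S, ∀ i ∈ I, s * i ∈ I) (h : IsElementaryLeftAmenable I) :
      IsElementaryLeftAmenable S
  | union (S : Type u) [Semigroup S] (𝓢 : Set (Subsemigroup S)) (hne : 𝓢.Nonempty)
      (hdir : DirectedOn (· ≤ ·) 𝓢) (hcov : ∀ g, ∃ K ∈ 𝓢, g ∈ K)
      (h : ∀ K ∈ 𝓢, IsElementaryLeftAmenable K) : IsElementaryLeftAmenable S
  | extension (S Q : Type u) [Semigroup S] [Semigroup Q] (N : Subsemigroup S) (π : S →ₙ* Q)
      (hπ : Function.Surjective π) (h1 : ∀ s : S, ∀ n ∈ N, ∃ n' ∈ N, n * s = s * n')
      (h2 : ∀ s t : S, π s = π t → ∃ n ∈ N, ∃ n' ∈ N, s * n = t * n')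
      (hN : IsElementaryLeftAmenable N) (hQ : IsElementaryLeftAmenable Q) :
      IsElementaryLeftAmenable S

section

variable {E : Type v} [NormedAddCommGroup E] [NormedSpace ℝ E]

/-- The distance of two functionals in the dual norm. -/
noncomputable def dualDist (x y : WeakDual ℝ E) : ℝ :=
  ‖WeakDual.toStrongDual x - WeakDual.toStrongDual y‖

/-- `T` is a norm nonexpansive representation of the semigroup `S` on the subset `C` of the dual
space of `E` for which `(s, x) ↦ T s x` is jointly continuous on `S × C`, for the weak-star
topology on `C`. -/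
structure IsRepresentation {S : Type u} [Semigroup S] [TopologicalSpace S]
    (C : Set (WeakDual ℝ E)) (T : S → WeakDual ℝ E → WeakDual ℝ E) : Prop where
  mapsTo : ∀ s, ∀ x ∈ C, T s x ∈ C
  mul : ∀ s t, ∀ x ∈ C, T (s * t) x = T s (T t x)
  nonexpansive : ∀ s, ∀ x ∈ C, ∀ y ∈ C, dualDist (T s x) (T s y) ≤ dualDist x y
  continuousOn : ContinuousOn (fun p : S × WeakDual ℝ E => T p.1 p.2) (Set.univ ×ˢ C)

/-- `F` is nonempty, and it is the image of a nonexpansive retraction of `C` onto `F`. -/
def IsNonemptyNonexpansiveRetract (C F : Set (WeakDual ℝ E)) : Prop :=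
  F.Nonempty ∧ F ⊆ C ∧ ∃ R : WeakDual ℝ E → WeakDual ℝ E, (∀ x ∈ C, R x ∈ F) ∧
    (∀ x ∈ F, R x = x) ∧ ∀ x ∈ C, ∀ y ∈ C, dualDist (R x) (R y) ≤ dualDist x y

end

/-- The strong form of property (F_*) of a semigroup with a topology: for every real Banach space
`E`, every nonempty convex weak-star compact subset `C` of the dual of `E` and every jointly
weak-star continuous norm nonexpansive representation `T` of `S` on `C`, the set of common fixed
points is nonempty and is a nonexpansive retract of `C`. -/
def StrongFStar (S : Type u) [Semigroup S] [TopologicalSpace S] : Prop :=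
  ∀ (E : Type v) [NormedAddCommGroup E] [NormedSpace ℝ E] [CompleteSpace E]
    (C : Set (WeakDual ℝ E)), C.Nonempty → Convex ℝ C → IsCompact C →
    ∀ T : S → WeakDual ℝ E → WeakDual ℝ E, IsRepresentation C T →
      IsNonemptyNonexpansiveRetract C {x ∈ C | ∀ s, T s x = x}

theorem subgroup_swap {G : Type u} [Group G] (H K : Subgroup G)
    (h : PP.{u, v} (H.subgroupOf K)) : PP.{u, v} (K.subgroupOf H) := by
  refine PP_surj (G := H.subgroupOf K) (Q := K.subgroupOf H)
    { toFun := fun x => ⟨⟨x.1.1, x.2⟩, x.1.2⟩
      map_one' := rfl
      map_mul' := fun x y => rfl } ?_ h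
  intro y
  exact ⟨⟨⟨y.1.1, y.2⟩, y.1.2⟩, rfl⟩

theorem pp_of_elementaryAmenable (G : Type u) [Group G] (h : IsElementaryAmenable G) :
    ∀ K : Subgroup G, PP.{u, v} K := by
  induction h with
  | of_finite G => exact fun K => PP_finite K
  | of_commute G h => exact fun K => PP_comm K fun a b => Subtype.ext (h a.1 b.1)
  | subgroup G H _ ih =>
    intro K
    have h1 := ih (K.map H.subtype)
    exact PP_surj (K.equivMapOfInjective H.subtype H.subtype_injective).symm.toMonoidHom
      (MulEquiv.surjective _) h1
  | quotient G Q f hf _ ih =>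
    intro K
    have h1 := ih (K.comap f)
    refine PP_surj (G := K.comap f) (Q := K)
      { toFun := fun x => ⟨f x.1, x.2⟩
        map_one' := Subtype.ext (map_one f)
        map_mul' := fun x y => Subtype.ext (map_mul f _ _) } ?_ h1
    rintro ⟨y, hy⟩
    obtain ⟨x, rfl⟩ := hf y
    exact ⟨⟨x, hy⟩, rfl⟩
  | extension G N _ _ ihN ihQ =>
    intro K
    let f : K →* G ⧸ N := (QuotientGroup.mk' N).comp K.subtype
    have h1 : PP.{u, v} (N.subgroupOf K) := subgroup_swap K N (ihN (K.subgroupOf N))
    have hker : f.ker = N.subgroupOf K := by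
      ext x
      rw [MonoidHom.mem_ker, Subgroup.mem_subgroupOf]
      exact QuotientGroup.eq_one_iff (N := N) x.1
    have h2 : PP.{u, v} (K ⧸ f.ker) :=
      PP_surj (QuotientGroup.quotientKerEquivRange f).symm.toMonoidHom (MulEquiv.surjective _)
        (ihQ f.range)
    have h3 : PP.{u, v} f.ker := by
      rw [hker]
      exact h1
    exact PP_ext K f.ker h3 h2
  | union G 𝓢 hne hdir hcov _ ih =>
    intro K
    refine PP_union K ((fun H : Subgroup G => H.subgroupOf K) '' 𝓢) (hne.image _) ?_ ?_ ?_
    · rintro _ ⟨H, hH, rfl⟩ _ ⟨H', hH', rfl⟩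
      obtain ⟨L, hL, h1, h2⟩ := hdir H hH H' hH'
      exact ⟨L.subgroupOf K, ⟨L, hL, rfl⟩, fun x hx => h1 hx, fun x hx => h2 hx⟩
    · intro g
      obtain ⟨L, hL, hg⟩ := hcov g.1
      exact ⟨L.subgroupOf K, ⟨L, hL, rfl⟩, hg⟩
    · rintro _ ⟨H, hH, rfl⟩
      exact subgroup_swap K H (ih H hH (K.subgroupOf H))

theorem pps_of_elementary (S : Type u) [Semigroup S] (h : IsElementaryLeftAmenable S) :
    PPS.{u, v} S := by
  induction h with
  | of_group G h =>
    refine PPS_group G ?_
    have h1 := pp_of_elementaryAmenable G h ⊤
    exact PP_surj (Subgroup.topEquiv (G := G)).toMonoidHom (MulEquiv.surjective _) h1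
  | of_commute S h => exact PPS_comm S h
  | image S Q f hf _ ih => exact PPS_surj f hf ih
  | leftIdeal S I hI hl _ ih => exact PPS_ideal S I hI hl ih
  | union S 𝓢 hne hdir hcov _ ih => exact PPS_union S 𝓢 hne hdir hcov ih
  | extension S Q N π hπ h1 h2 _ _ ihN ihQ => exact PPS_ext S Q N π hπ h1 h2 ihN ihQ

/-- Let `D` be an elementary left amenable semigroup, for instance an elementary amenable group,
and let `S` be a semitopological semigroup having a nonempty left ideal `I` contained in the
closure of `φ(D)` for a homomorphism `φ : D → S` (for instance `S = D` with any topology). Then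
`S` has property (F_*), and common fixed point sets are nonexpansive retracts. -/
theorem result (S : Type u) [Semigroup S] [TopologicalSpace S] [T2Space S]
    (_hl : ∀ a : S, Continuous fun s => a * s) (_hr : ∀ a : S, Continuous fun s => s * a)
    (D : Type w) [Semigroup D] (hD : IsElementaryLeftAmenable D) (φ : D →ₙ* S)
    (I : Set S) (hI : I.Nonempty) (hIl : ∀ s : S, ∀ i ∈ I, s * i ∈ I)
    (hcl : I ⊆ closure (Set.range φ)) : StrongFStar.{u, v} S := by
  intro E _ _ _ C hne hconv hC T hT
  obtain ⟨-, h2, R, h3, h4, h5⟩ := final (pps_of_elementary D hD) φ I hI hIl hcl E C hC hconv T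
    hT.mapsTo hT.mul hT.nonexpansive hT.continuousOn
  obtain ⟨x, hx⟩ := hne
  exact ⟨⟨R x, h3 x hx⟩, h2, R, h3, h4, h5⟩

end Pool.Agent.Results.MP_f4bd1c_an.ElementaryAmenable
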