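import Mathlib

/-!
Property (F_*) for all semitopological semigroups `S` such that `LUC(S)` has a left invariant mean.

Let `m` be a left invariant mean on `LUC(S)`, let `C` be a weak-star compact convex set with a norm
nonexpansive, jointly weak-star continuous representation `T` of `S`, let `x₀ ∈ C` and let
`B_n w = w + (x₀ - w) / n`. Put `L_0 ψ = ψ x₀` and `L_{n+1} ψ = m_p [L_n (ψ ∘ T_p ∘ B_{n+1})]` for
weak-star continuous `ψ : C → ℝ`. For `n ≥ 1` the functional `L_n` is positive, normalized and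
invariant, and `L_n (ψ²) - (L_n ψ)² ≤ Lip(ψ)² diam(C)² / n`, by induction on `n`. We apply this to
`ψ = φ ∘ T_s - φ`, where `φ` is a weak-star continuous linear functional: then `L_n ψ = 0`, so
finitely many of these functions are simultaneously small at some point of `C`. Compactness gives a
point where all of them vanish.
-/

set_option autoImplicit false

namespace Pool.Agent.Results.MP_f4bd1c_an.FStarProperty

open scoped BoundedContinuousFunction

universe u v w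

section LUC

variable {S : Type u} [Semigroup S] [TopologicalSpace S] [SeparatelyContinuousMul S]

/-- The left translate `(ℓ_a f) (t) = f (a t)` of a bounded continuous function `f`. -/
def leftTranslate (a : S) (f : S →ᵇ ℝ) : S →ᵇ ℝ :=
  f.compContinuous ⟨fun t => a * t, SeparatelyContinuousMul.continuous_const_mul⟩

@[simp]
theorem leftTranslate_apply (a : S) (f : S →ᵇ ℝ) (t : S) : leftTranslate a f t = f (a * t) := rfl

variable (S) in
/-- The space `LUC(S)` of the bounded continuous real functions `f` on `S` for which `a ↦ ℓ_a f` is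
continuous from `S` to the bounded continuous functions with the sup norm. -/
def LUC : Submodule ℝ (S →ᵇ ℝ) where
  carrier := {f | Continuous fun a : S => leftTranslate a f}
  add_mem' := by
    intro f g hf hg
    have h : (fun a : S => leftTranslate a (f + g)) =
        fun a => leftTranslate a f + leftTranslate a g := by
      funext a; ext t; rfl
    simp only [Set.mem_ofPred_eq] at hf hg ⊢
    rw [h]
    exact hf.add hg
  zero_mem' := by
    have h : (fun a : S => leftTranslate a (0 : S →ᵇ ℝ)) = fun _ => 0 := by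
      funext a; ext t; rfl
    simp only [Set.mem_ofPred_eq]
    rw [h]
    exact continuous_const
  smul_mem' := by
    intro c f hf
    have h : (fun a : S => leftTranslate a (c • f)) = fun a => c • leftTranslate a f := by
      funext a; ext t; rfl
    simp only [Set.mem_ofPred_eq] at hf ⊢
    rw [h]
    exact hf.const_smul c

theorem mem_LUC {f : S →ᵇ ℝ} : f ∈ LUC S ↔ Continuous fun a : S => leftTranslate a f := Iff.rfl

theorem one_mem_LUC : (1 : S →ᵇ ℝ) ∈ LUC S := by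
  rw [mem_LUC]
  have h : (fun a : S => leftTranslate a (1 : S →ᵇ ℝ)) = fun _ => 1 := by
    funext a; ext t; rfl
  rw [h]
  exact continuous_const

theorem leftTranslate_mem_LUC (a : S) {f : S →ᵇ ℝ} (hf : f ∈ LUC S) :
    leftTranslate a f ∈ LUC S := by
  rw [mem_LUC] at hf ⊢
  have h : (fun b : S => leftTranslate b (leftTranslate a f)) =
      (fun c : S => leftTranslate c f) ∘ fun b => a * b := by
    funext b; ext t; simp [mul_assoc]
  rw [h]
  exact hf.comp SeparatelyContinuousMul.continuous_const_mul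

/-- `m` is a left invariant mean on `LUC(S)`: a linear functional with `|m f| ≤ ‖f‖` for all `f`
(the sup norm) and `m 1 = 1`, that is, with `‖m‖ = m 1 = 1`, and with `m (ℓ_a f) = m f` for all
`a ∈ S` and `f ∈ LUC(S)`. -/
def IsLeftInvariantMean (m : LUC S →ₗ[ℝ] ℝ) : Prop :=
  (∀ f : LUC S, |m f| ≤ ‖(f : S →ᵇ ℝ)‖) ∧ m ⟨1, one_mem_LUC⟩ = 1 ∧
    ∀ (a : S) (f : LUC S), m ⟨leftTranslate a f, leftTranslate_mem_LUC a f.2⟩ = m f

end LUC

section FStar

variable {𝕜 : Type w} [RCLike 𝕜] {E : Type v} [NormedAddCommGroup E] [NormedSpace 𝕜 E]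

/-- The distance of two functionals in the dual norm. -/
noncomputable def dualDist (x y : WeakDual 𝕜 E) : ℝ :=
  ‖WeakDual.toStrongDual x - WeakDual.toStrongDual y‖

/-- `T` is a norm nonexpansive representation of `S` on the subset `C` of the dual space of `E`,
and `(s, x) ↦ T s x` is jointly continuous on `S × C`, for the weak-star topology on `C`. -/
structure IsRepresentation {S : Type u} [Semigroup S] [TopologicalSpace S]
    (C : Set (WeakDual 𝕜 E)) (T : S → C → C) : Prop where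
  mul : ∀ (s t : S) (x : C), T (s * t) x = T s (T t x)
  nonexpansive : ∀ (s : S) (x y : C),
    dualDist (T s x : WeakDual 𝕜 E) (T s y) ≤ dualDist (x : WeakDual 𝕜 E) y
  continuous : Continuous fun p : S × C => T p.1 p.2

variable (𝕜) in
/-- Property (F_*) of a semitopological semigroup `S`, for Banach spaces over `𝕜`: every norm
nonexpansive representation of `S` on a nonempty convex weak-star compact subset of a dual Banach
space, which is jointly continuous for the weak-star topology, has a common fixed point. -/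
def FStar (S : Type u) [Semigroup S] [TopologicalSpace S] : Prop :=
  ∀ (E : Type v) [NormedAddCommGroup E] [NormedSpace 𝕜 E] [CompleteSpace E]
    (C : Set (WeakDual 𝕜 E)), C.Nonempty → Convex ℝ C → IsCompact C →
    ∀ T : S → C → C, IsRepresentation C T → ∃ x : C, ∀ s : S, T s x = x

end FStar

/-! ### Positive normalized functionals -/

section Core

variable {K : Type v} [TopologicalSpace K]

/-- Positive normalized functionals on the continuous functions on `K`. -/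
def IsMean (L : C(K, ℝ) →ₗ[ℝ] ℝ) : Prop :=
  ∀ (ψ : C(K, ℝ)) (a : ℝ), (∀ x, a ≤ ψ x) → a ≤ L ψ

theorem IsMean.le {L : C(K, ℝ) →ₗ[ℝ] ℝ} (hL : IsMean L) (ψ : C(K, ℝ)) (a : ℝ)
    (h : ∀ x, ψ x ≤ a) : L ψ ≤ a := by
  have := hL (-ψ) (-a) fun x => by simpa using h x
  rw [map_neg] at this
  linarith

theorem IsMean.mono {L : C(K, ℝ) →ₗ[ℝ] ℝ} (hL : IsMean L) (ψ χ : C(K, ℝ))
    (h : ∀ x, ψ x ≤ χ x) : L ψ ≤ L χ := by
  have := hL (χ - ψ) 0 fun x => by simpa using h x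
  rw [map_sub] at this
  linarith

theorem IsMean.abs_le {L : C(K, ℝ) →ₗ[ℝ] ℝ} (hL : IsMean L) (ψ : C(K, ℝ)) (a : ℝ)
    (h : ∀ x, |ψ x| ≤ a) : |L ψ| ≤ a :=
  _root_.abs_le.mpr ⟨hL ψ (-a) fun x => (_root_.abs_le.mp (h x)).1,
    hL.le ψ a fun x => (_root_.abs_le.mp (h x)).2⟩

theorem IsMean.const {L : C(K, ℝ) →ₗ[ℝ] ℝ} (hL : IsMean L) (a : ℝ) :
    L (ContinuousMap.const K a) = a :=
  le_antisymm (hL.le _ a fun _ => le_rfl) (hL _ a fun _ => le_rfl)

variable {S : Type u} [Semigroup S] [TopologicalSpace S] [SeparatelyContinuousMul S]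

theorem mean_le {m : LUC S →ₗ[ℝ] ℝ} (hm : IsLeftInvariantMean m) (f : LUC S) (a : ℝ)
    (h : ∀ p, a ≤ (f : S →ᵇ ℝ) p) : a ≤ m f := by
  obtain ⟨h1, h2, -⟩ := hm
  obtain ⟨b, hb, hab⟩ : ∃ b, (∀ p, (f : S →ᵇ ℝ) p ≤ b) ∧ a ≤ b := by
    refine ⟨max ‖(f : S →ᵇ ℝ)‖ a, fun p => ?_, le_max_right _ _⟩
    exact ((le_abs_self _).trans ((f : S →ᵇ ℝ).norm_coe_le_norm p)).trans (le_max_left _ _)
  have h3 : ‖((f + (-((a + b) / 2)) • (⟨1, one_mem_LUC⟩ : LUC S) : LUC S) : S →ᵇ ℝ)‖ ≤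
      (b - a) / 2 := by
    change ‖(f : S →ᵇ ℝ) + (-((a + b) / 2)) • (1 : S →ᵇ ℝ)‖ ≤ (b - a) / 2
    rw [BoundedContinuousFunction.norm_le (by linarith)]
    intro p
    have h4 := h p
    have h5 := hb p
    simp only [BoundedContinuousFunction.coe_add, BoundedContinuousFunction.coe_smul,
      BoundedContinuousFunction.coe_one, Pi.add_apply, Pi.one_apply, Real.norm_eq_abs,
      smul_eq_mul, mul_one]
    rw [abs_le]
    constructor <;> linarith
  have h4 := (h1 _).trans h3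
  rw [map_add, map_smul, h2, smul_eq_mul, mul_one, abs_le] at h4
  linarith [h4.1]

end Core

section Step

variable {K : Type v} [TopologicalSpace K] [CompactSpace K] {S : Type u} [TopologicalSpace S]

/-- The function `p ↦ L (g ∘ T_p ∘ B)` on `S`. -/
noncomputable def orbitFun (T : S → K → K) (hT : Continuous fun p : S × K => T p.1 p.2)
    (B : C(K, K)) (L : C(K, ℝ) →ₗ[ℝ] ℝ) (hL : IsMean L) (g : C(K, ℝ)) : S →ᵇ ℝ :=
  BoundedContinuousFunction.ofNormedAddCommGroup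
    (fun p => L (g.comp ((⟨T p, hT.comp (Continuous.prodMk_right p)⟩ : C(K, K)).comp B)))
    (by
      have h1 : Continuous fun p : S =>
          g.comp ((⟨T p, hT.comp (Continuous.prodMk_right p)⟩ : C(K, K)).comp B) := by
        apply ContinuousMap.continuous_of_continuous_uncurry
        exact g.continuous.comp
          (hT.comp (continuous_fst.prodMk (B.continuous.comp continuous_snd)))
      have h2 : Continuous fun ψ : C(K, ℝ) => L ψ := by
        refine (LinearMap.mkContinuous L 1 fun ψ => ?_).continuous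
        rw [one_mul]
        exact hL.abs_le ψ _ fun x => ψ.norm_coe_le_norm x
      exact h2.comp h1)
    ‖g‖ (fun p => hL.abs_le _ _ fun x => g.norm_coe_le_norm _)

@[simp]
theorem orbitFun_apply (T : S → K → K) (hT : Continuous fun p : S × K => T p.1 p.2)
    (B : C(K, K)) (L : C(K, ℝ) →ₗ[ℝ] ℝ) (hL : IsMean L) (g : C(K, ℝ)) (p : S) :
    orbitFun T hT B L hL g p =
      L (g.comp ((⟨T p, hT.comp (Continuous.prodMk_right p)⟩ : C(K, K)).comp B)) := rfl

theorem orbitFun_continuous (T : S → K → K) (hT : Continuous fun p : S × K => T p.1 p.2)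
    (B : C(K, K)) (L : C(K, ℝ) →ₗ[ℝ] ℝ) (hL : IsMean L) :
    Continuous fun g : C(K, ℝ) => orbitFun T hT B L hL g := by
  refine (LipschitzWith.of_dist_le_mul (K := 1) fun g g' => ?_).continuous
  rw [NNReal.coe_one, one_mul, BoundedContinuousFunction.dist_le dist_nonneg]
  intro p
  rw [orbitFun_apply, orbitFun_apply, Real.dist_eq, ← map_sub]
  refine hL.abs_le _ _ fun x => ?_
  have := ContinuousMap.dist_apply_le_dist (f := g) (g := g') (T p (B x))
  rw [Real.dist_eq] at this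
  exact this

variable [Semigroup S] [SeparatelyContinuousMul S]

/-- The map `T_s` as a continuous map. -/
def act (T : S → K → K) (hT : Continuous fun p : S × K => T p.1 p.2) (s : S) : C(K, K) :=
  ⟨T s, hT.comp (Continuous.prodMk_right s)⟩

theorem leftTranslate_orbitFun (T : S → K → K) (hT : Continuous fun p : S × K => T p.1 p.2)
    (hmul : ∀ s t x, T (s * t) x = T s (T t x))
    (B : C(K, K)) (L : C(K, ℝ) →ₗ[ℝ] ℝ) (hL : IsMean L) (g : C(K, ℝ)) (a : S) :
    leftTranslate a (orbitFun T hT B L hL g) = orbitFun T hT B L hL (g.comp (act T hT a)) := by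
  ext p
  rw [leftTranslate_apply, orbitFun_apply, orbitFun_apply]
  congr 1
  ext x
  simp [act, hmul]

theorem orbitFun_mem_LUC (T : S → K → K) (hT : Continuous fun p : S × K => T p.1 p.2)
    (hmul : ∀ s t x, T (s * t) x = T s (T t x))
    (B : C(K, K)) (L : C(K, ℝ) →ₗ[ℝ] ℝ) (hL : IsMean L) (g : C(K, ℝ)) :
    orbitFun T hT B L hL g ∈ LUC S := by
  rw [mem_LUC]
  have h : (fun a : S => leftTranslate a (orbitFun T hT B L hL g)) =
      (fun g : C(K, ℝ) => orbitFun T hT B L hL g) ∘ fun a => g.comp (act T hT a) := by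
    funext a
    exact leftTranslate_orbitFun T hT hmul B L hL g a
  rw [h]
  refine (orbitFun_continuous T hT B L hL).comp ?_
  apply ContinuousMap.continuous_of_continuous_uncurry
  exact g.continuous.comp hT

/-- The functional `g ↦ m_p [L (g ∘ T_p ∘ B)]`. -/
noncomputable def next (m : LUC S →ₗ[ℝ] ℝ) (T : S → K → K)
    (hT : Continuous fun p : S × K => T p.1 p.2) (hmul : ∀ s t x, T (s * t) x = T s (T t x))
    (B : C(K, K)) (L : C(K, ℝ) →ₗ[ℝ] ℝ) (hL : IsMean L) : C(K, ℝ) →ₗ[ℝ] ℝ where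
  toFun g := m ⟨orbitFun T hT B L hL g, orbitFun_mem_LUC T hT hmul B L hL g⟩
  map_add' g g' := by
    rw [← map_add]
    congr 1
    apply Subtype.ext
    ext p
    change L ((g + g').comp _) = L (g.comp _) + L (g'.comp _)
    rw [← map_add]
    rfl
  map_smul' c g := by
    rw [RingHom.id_apply, ← map_smul]
    congr 1
    apply Subtype.ext
    ext p
    change L ((c • g).comp _) = c • L (g.comp _)
    rw [← map_smul]
    rfl

theorem le_next {m : LUC S →ₗ[ℝ] ℝ} (hm : IsLeftInvariantMean m) (T : S → K → K)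
    (hT : Continuous fun p : S × K => T p.1 p.2) (hmul : ∀ s t x, T (s * t) x = T s (T t x))
    (B : C(K, K)) (L : C(K, ℝ) →ₗ[ℝ] ℝ) (hL : IsMean L) (g : C(K, ℝ)) (a : ℝ)
    (h : ∀ p, a ≤ L (g.comp ((act T hT p).comp B))) : a ≤ next m T hT hmul B L hL g :=
  mean_le hm ⟨orbitFun T hT B L hL g, orbitFun_mem_LUC T hT hmul B L hL g⟩ a h

theorem isMean_next {m : LUC S →ₗ[ℝ] ℝ} (hm : IsLeftInvariantMean m) (T : S → K → K)
    (hT : Continuous fun p : S × K => T p.1 p.2) (hmul : ∀ s t x, T (s * t) x = T s (T t x))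
    (B : C(K, K)) (L : C(K, ℝ) →ₗ[ℝ] ℝ) (hL : IsMean L) : IsMean (next m T hT hmul B L hL) :=
  fun g a h => le_next hm T hT hmul B L hL g a fun _ => hL _ _ fun _ => h _

/-- Left invariance of the mean gives invariance of the functional. -/
theorem next_act {m : LUC S →ₗ[ℝ] ℝ} (hm : IsLeftInvariantMean m) (T : S → K → K)
    (hT : Continuous fun p : S × K => T p.1 p.2) (hmul : ∀ s t x, T (s * t) x = T s (T t x))
    (B : C(K, K)) (L : C(K, ℝ) →ₗ[ℝ] ℝ) (hL : IsMean L) (g : C(K, ℝ)) (s : S) :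
    next m T hT hmul B L hL (g.comp (act T hT s)) = next m T hT hmul B L hL g := by
  have h := hm.2.2 s ⟨orbitFun T hT B L hL g, orbitFun_mem_LUC T hT hmul B L hL g⟩
  simp only [leftTranslate_orbitFun T hT hmul B L hL g s] at h
  exact h

/-- `L (ψ²) ≤ (L ψ)² + Lip(ψ)² c`. -/
def VarLe (d : K → K → ℝ) (L : C(K, ℝ) →ₗ[ℝ] ℝ) (c : ℝ) : Prop :=
  ∀ (ψ : C(K, ℝ)) (κ : ℝ), 0 ≤ κ → (∀ x y, |ψ x - ψ y| ≤ κ * d x y) →
    L (ψ * ψ) ≤ (L ψ) ^ 2 + κ ^ 2 * c

omit [CompactSpace K] in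
theorem varLe_of_isMean [Nonempty K] {d : K → K → ℝ} {Δ : ℝ}
    (hΔ : ∀ x y, d x y ≤ Δ) {L : C(K, ℝ) →ₗ[ℝ] ℝ} (hL : IsMean L) : VarLe d L (Δ ^ 2) := by
  intro ψ κ hκ hψ
  obtain ⟨x₀⟩ := ‹Nonempty K›
  have h1 := hL ((2 * ψ x₀) • ψ + ContinuousMap.const K (κ ^ 2 * Δ ^ 2 - ψ x₀ ^ 2) - ψ * ψ) 0
    fun x => by
      have h2 := hψ x x₀
      have h3 : κ * d x x₀ ≤ κ * Δ := mul_le_mul_of_nonneg_left (hΔ x x₀) hκ
      have h4 : (ψ x - ψ x₀) ^ 2 ≤ (κ * Δ) ^ 2 := by
        rw [← sq_abs (ψ x - ψ x₀)]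
        exact pow_le_pow_left₀ (abs_nonneg _) (h2.trans h3) 2
      simp only [ContinuousMap.coe_sub, ContinuousMap.coe_add, ContinuousMap.coe_smul,
        ContinuousMap.coe_mul, Pi.sub_apply, Pi.add_apply, Pi.smul_apply, Pi.mul_apply,
        smul_eq_mul, ContinuousMap.const_apply]
      nlinarith
  rw [map_sub, map_add, map_smul, hL.const, smul_eq_mul] at h1
  nlinarith [sq_nonneg (L ψ - ψ x₀)]

/-- The main step. -/
theorem varLe_next {m : LUC S →ₗ[ℝ] ℝ} (hm : IsLeftInvariantMean m) (T : S → K → K)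
    (hT : Continuous fun p : S × K => T p.1 p.2) (hmul : ∀ s t x, T (s * t) x = T s (T t x))
    (B : C(K, K)) (L : C(K, ℝ) →ₗ[ℝ] ℝ) (hL : IsMean L)
    (hinv : ∀ (s : S) (ψ : C(K, ℝ)), L (ψ.comp (act T hT s)) = L ψ)
    {d : K → K → ℝ} (hTd : ∀ s x y, d (T s x) (T s y) ≤ d x y) {τ Δ c : ℝ} (hτ1 : τ ≤ 1)
    (hB : ∀ x y, d (B x) (B y) ≤ (1 - τ) * d x y) (hBx : ∀ x, d (B x) x ≤ τ * Δ)
    (hc : VarLe d L c) : VarLe d (next m T hT hmul B L hL) ((1 - τ) ^ 2 * c + (τ * Δ) ^ 2) := by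
  intro ψ κ hκ hψ
  have key : 0 ≤ next m T hT hmul B L hL ((2 * L ψ) • ψ + ContinuousMap.const K
      (κ ^ 2 * ((1 - τ) ^ 2 * c + (τ * Δ) ^ 2) - (L ψ) ^ 2) - ψ * ψ) := by
    refine le_next hm T hT hmul B L hL _ 0 fun p => ?_
    obtain ⟨χ, hχ⟩ : ∃ χ, χ = ψ.comp ((act T hT p).comp B) := ⟨_, rfl⟩
    have hχx : ∀ x, χ x = ψ (T p (B x)) := fun x => by rw [hχ]; rfl
    have h1 : ∀ x y, |χ x - χ y| ≤ κ * (1 - τ) * d x y := by
      intro x y
      rw [hχx, hχx, mul_assoc]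
      exact (hψ _ _).trans (mul_le_mul_of_nonneg_left ((hTd p _ _).trans (hB x y)) hκ)
    have h2 := hc χ (κ * (1 - τ)) (mul_nonneg hκ (by linarith)) h1
    have h3 : |L χ - L ψ| ≤ κ * (τ * Δ) := by
      rw [← hinv p ψ, ← map_sub]
      refine hL.abs_le _ _ fun x => ?_
      change |χ x - ψ (T p x)| ≤ _
      rw [hχx]
      exact (hψ _ _).trans (mul_le_mul_of_nonneg_left ((hTd p _ _).trans (hBx x)) hκ)
    have h4 : (L χ - L ψ) ^ 2 ≤ (κ * (τ * Δ)) ^ 2 := by
      rw [← sq_abs (L χ - L ψ)]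
      exact pow_le_pow_left₀ (abs_nonneg _) h3 2
    have h5 : ((2 * L ψ) • ψ + ContinuousMap.const K
        (κ ^ 2 * ((1 - τ) ^ 2 * c + (τ * Δ) ^ 2) - (L ψ) ^ 2) - ψ * ψ).comp
        ((act T hT p).comp B) = (2 * L ψ) • χ + ContinuousMap.const K
        (κ ^ 2 * ((1 - τ) ^ 2 * c + (τ * Δ) ^ 2) - (L ψ) ^ 2) - χ * χ := by
      rw [hχ]
      rfl
    rw [h5, map_sub, map_add, map_smul, hL.const, smul_eq_mul]
    nlinarith
  have hN := isMean_next hm T hT hmul B L hL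
  rw [map_sub, map_add, map_smul, hN.const, smul_eq_mul] at key
  nlinarith [sq_nonneg (next m T hT hmul B L hL ψ - L ψ)]

/-- Invariant positive normalized functionals with variances at most `Δ² / n`. -/
theorem exists_mean [Nonempty K] {m : LUC S →ₗ[ℝ] ℝ} (hm : IsLeftInvariantMean m) (T : S → K → K)
    (hT : Continuous fun p : S × K => T p.1 p.2) (hmul : ∀ s t x, T (s * t) x = T s (T t x))
    {d : K → K → ℝ} (hTd : ∀ s x y, d (T s x) (T s y) ≤ d x y) {Δ : ℝ} (hΔ : ∀ x y, d x y ≤ Δ)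
    (B : ℕ → C(K, K)) (hB : ∀ n x y, d (B n x) (B n y) ≤ (1 - 1 / (n + 1 : ℝ)) * d x y)
    (hBx : ∀ n x, d (B n x) x ≤ 1 / (n + 1 : ℝ) * Δ) (n : ℕ) (hn : 1 ≤ n) :
    ∃ L : C(K, ℝ) →ₗ[ℝ] ℝ, IsMean L ∧ (∀ (s : S) (ψ : C(K, ℝ)), L (ψ.comp (act T hT s)) = L ψ) ∧
      VarLe d L (Δ ^ 2 / n) := by
  induction n, hn using Nat.le_induction with
  | base =>
    obtain ⟨x₀⟩ := ‹Nonempty K›
    have hL : IsMean (LinearMap.mk (AddHom.mk (fun ψ : C(K, ℝ) => ψ x₀) fun _ _ => rfl)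
      fun _ _ => rfl : C(K, ℝ) →ₗ[ℝ] ℝ) := fun ψ a h => h x₀
    have : Nonempty K := ⟨x₀⟩
    refine ⟨next m T hT hmul (ContinuousMap.id K) _ hL,
      isMean_next hm T hT hmul _ _ hL, fun s ψ => next_act hm T hT hmul _ _ hL ψ s, ?_⟩
    rw [Nat.cast_one, div_one]
    exact varLe_of_isMean hΔ (isMean_next hm T hT hmul _ _ hL)
  | succ n hn ih =>
    obtain ⟨L, hL, hinv, hv⟩ := ih
    refine ⟨next m T hT hmul (B n) L hL, isMean_next hm T hT hmul _ _ hL,
      fun s ψ => next_act hm T hT hmul _ _ hL ψ s, ?_⟩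
    have hn' : (0 : ℝ) < n := by exact_mod_cast hn
    have h1 := varLe_next hm T hT hmul (B n) L hL hinv hTd (τ := 1 / (n + 1 : ℝ)) (Δ := Δ)
      (by rw [div_le_one (by linarith)]; linarith) (hB n) (hBx n) hv
    have h2 : (1 - 1 / (n + 1 : ℝ)) ^ 2 * (Δ ^ 2 / n) + (1 / (n + 1 : ℝ) * Δ) ^ 2 =
        Δ ^ 2 / ((n + 1 : ℕ) : ℝ) := by
      push_cast
      field_simp
      ring
    rw [h2] at h1
    exact h1

/-- The fixed point theorem for a compact space with a suitable distance function. -/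
theorem exists_fixed [Nonempty K] {m : LUC S →ₗ[ℝ] ℝ} (hm : IsLeftInvariantMean m)
    (T : S → K → K)
    (hT : Continuous fun p : S × K => T p.1 p.2) (hmul : ∀ s t x, T (s * t) x = T s (T t x))
    {d : K → K → ℝ} (hTd : ∀ s x y, d (T s x) (T s y) ≤ d x y) {Δ : ℝ} (hΔ : ∀ x y, d x y ≤ Δ)
    (B : ℕ → C(K, K)) (hB : ∀ n x y, d (B n x) (B n y) ≤ (1 - 1 / (n + 1 : ℝ)) * d x y)
    (hBx : ∀ n x, d (B n x) x ≤ 1 / (n + 1 : ℝ) * Δ) {ι : Type w} (φ : ι → C(K, ℝ))
    (κ : ι → ℝ) (hκ : ∀ i, 0 ≤ κ i) (hφ : ∀ i x y, |φ i x - φ i y| ≤ κ i * d x y) :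
    ∃ x, ∀ i s, φ i (T s x) = φ i x := by
  obtain ⟨ψ, hψ⟩ : ∃ ψ : ι × S → C(K, ℝ), ∀ j, ψ j = (φ j.1).comp (act T hT j.2) - φ j.1 :=
    ⟨_, fun _ => rfl⟩
  have hψx : ∀ j x, ψ j x = φ j.1 (T j.2 x) - φ j.1 x := fun j x => by rw [hψ]; rfl
  have main : (⋂ j : ι × S, {x | ψ j x = 0}).Nonempty := by
    refine CompactSpace.iInter_nonempty
      (fun j => isClosed_eq (ψ j).continuous continuous_const) fun J => ?_
    obtain ⟨x, -, hx⟩ := isCompact_univ.exists_isMinOn Set.univ_nonempty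
      (∑ j ∈ J, ψ j * ψ j : C(K, ℝ)).continuous.continuousOn
    have hx' : ∀ y, (∑ j ∈ J, ψ j * ψ j : C(K, ℝ)) x ≤ (∑ j ∈ J, ψ j * ψ j : C(K, ℝ)) y :=
      fun y => hx (Set.mem_univ y)
    have h1 : ∀ n : ℕ, 1 ≤ n → (∑ j ∈ J, ψ j * ψ j : C(K, ℝ)) x ≤
        (∑ j ∈ J, (2 * κ j.1) ^ 2) * Δ ^ 2 / n := by
      intro n hn
      obtain ⟨L, hL, hinv, hv⟩ := exists_mean hm T hT hmul hTd hΔ B hB hBx n hn
      refine (hL _ _ hx').trans ?_
      rw [map_sum, Finset.sum_mul, Finset.sum_div]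
      refine Finset.sum_le_sum fun j _ => ?_
      have h2 : L (ψ j) = 0 := by rw [hψ, map_sub, hinv, sub_self]
      have h3 := hv (ψ j) (2 * κ j.1) (mul_nonneg two_pos.le (hκ _)) fun y z => by
        rw [hψx, hψx]
        have h4 := hφ j.1 (T j.2 y) (T j.2 z)
        have h5 := hφ j.1 y z
        have h6 := mul_le_mul_of_nonneg_left (hTd j.2 y z) (hκ j.1)
        calc |φ j.1 (T j.2 y) - φ j.1 y - (φ j.1 (T j.2 z) - φ j.1 z)|
            = |(φ j.1 (T j.2 y) - φ j.1 (T j.2 z)) - (φ j.1 y - φ j.1 z)| := by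
              congr 1; ring
          _ ≤ |φ j.1 (T j.2 y) - φ j.1 (T j.2 z)| + |φ j.1 y - φ j.1 z| := abs_sub _ _
          _ ≤ 2 * κ j.1 * d y z := by linarith
      rw [h2] at h3
      calc L (ψ j * ψ j) ≤ 0 ^ 2 + (2 * κ j.1) ^ 2 * (Δ ^ 2 / n) := h3
        _ = (2 * κ j.1) ^ 2 * Δ ^ 2 / n := by ring
    have h2 : (∑ j ∈ J, ψ j * ψ j : C(K, ℝ)) x ≤ 0 := by
      refine ge_of_tendsto
        (tendsto_const_div_atTop_nhds_zero_nat ((∑ j ∈ J, (2 * κ j.1) ^ 2) * Δ ^ 2)) ?_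
      filter_upwards [Filter.eventually_ge_atTop 1] with n hn using h1 n hn
    refine ⟨x, ?_⟩
    simp only [Set.mem_iInter, Set.mem_ofPred_eq]
    intro j hj
    have h3 : ∑ j ∈ J, ψ j x * ψ j x ≤ 0 := by
      simpa [ContinuousMap.sum_apply] using h2
    have h4 := (Finset.sum_eq_zero_iff_of_nonneg fun j _ => mul_self_nonneg (ψ j x)).mp
      (le_antisymm h3 (Finset.sum_nonneg fun j _ => mul_self_nonneg (ψ j x))) j hj
    exact mul_self_eq_zero.mp h4
  obtain ⟨x, hx⟩ := main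
  refine ⟨x, fun i s => ?_⟩
  have h := Set.mem_iInter.mp hx (i, s)
  rw [Set.mem_ofPred_eq, hψx] at h
  exact sub_eq_zero.mp h

end Step

/-! ### Weak-star compact convex sets -/

section Dual

variable {𝕜 : Type w} [RCLike 𝕜] {E : Type v} [NormedAddCommGroup E] [NormedSpace 𝕜 E]

theorem norm_eval_sub_le (x y : WeakDual 𝕜 E) (e : E) : ‖x e - y e‖ ≤ ‖e‖ * dualDist x y := by
  have h := (WeakDual.toStrongDual x - WeakDual.toStrongDual y).le_opNorm e
  rw [mul_comm]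
  exact h

theorem exists_dualDist_le [CompleteSpace E] {C : Set (WeakDual 𝕜 E)} (hC : IsCompact C) :
    ∃ Δ, ∀ x ∈ C, ∀ y ∈ C, dualDist x y ≤ Δ := by
  have h1 : ∀ e : E, ∃ M : ℝ, ∀ i : C, ‖(WeakDual.toStrongDual (i : WeakDual 𝕜 E)) e‖ ≤ M := by
    intro e
    have h : Continuous fun x : WeakDual 𝕜 E => ‖x e‖ := (WeakDual.eval_continuous e).norm
    obtain ⟨M, hM⟩ := (hC.image h).bddAbove
    exact ⟨M, fun i => hM ⟨i.1, i.2, rfl⟩⟩
  obtain ⟨M, hM⟩ := banach_steinhaus h1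
  refine ⟨M + M, fun x hx y hy => ?_⟩
  exact (norm_sub_le _ _).trans (add_le_add (hM ⟨x, hx⟩) (hM ⟨y, hy⟩))

/-- The map `w ↦ w + τ (x₀ - w)` on a convex set. -/
noncomputable def contr {C : Set (WeakDual 𝕜 E)} (hC : Convex ℝ C) (x₀ : C) (τ : ℝ) (h0 : 0 ≤ τ)
    (h1 : τ ≤ 1) : C(C, C) where
  toFun w := ⟨(1 - τ) • (w : WeakDual 𝕜 E) + τ • (x₀ : WeakDual 𝕜 E),
    hC w.2 x₀.2 (by linarith) h0 (by ring)⟩
  continuous_toFun := by
    have h : Continuous fun w : C => (w : WeakDual 𝕜 E) := continuous_subtype_val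
    exact ((h.const_smul (1 - τ)).add continuous_const).subtype_mk _

theorem dualDist_contr {C : Set (WeakDual 𝕜 E)} (hC : Convex ℝ C) (x₀ : C) (τ : ℝ) (h0 : 0 ≤ τ)
    (h1 : τ ≤ 1) (x y : C) :
    dualDist (contr hC x₀ τ h0 h1 x : WeakDual 𝕜 E) (contr hC x₀ τ h0 h1 y) ≤
      (1 - τ) * dualDist (x : WeakDual 𝕜 E) y := by
  have h : WeakDual.toStrongDual (contr hC x₀ τ h0 h1 x : WeakDual 𝕜 E) -
      WeakDual.toStrongDual (contr hC x₀ τ h0 h1 y : WeakDual 𝕜 E) =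
      (1 - τ) • (WeakDual.toStrongDual (x : WeakDual 𝕜 E) -
        WeakDual.toStrongDual (y : WeakDual 𝕜 E)) := by
    change ((1 - τ) • WeakDual.toStrongDual (x : WeakDual 𝕜 E) +
        τ • WeakDual.toStrongDual (x₀ : WeakDual 𝕜 E)) -
      ((1 - τ) • WeakDual.toStrongDual (y : WeakDual 𝕜 E) +
        τ • WeakDual.toStrongDual (x₀ : WeakDual 𝕜 E)) = _
    rw [smul_sub]
    abel
  rw [dualDist, h, norm_smul, Real.norm_eq_abs, abs_of_nonneg (by linarith)]
  exact le_rfl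

theorem dualDist_contr_self {C : Set (WeakDual 𝕜 E)} (hC : Convex ℝ C) (x₀ : C) (τ : ℝ)
    (h0 : 0 ≤ τ) (h1 : τ ≤ 1) (x : C) :
    dualDist (contr hC x₀ τ h0 h1 x : WeakDual 𝕜 E) x ≤
      τ * dualDist (x₀ : WeakDual 𝕜 E) x := by
  have h : WeakDual.toStrongDual (contr hC x₀ τ h0 h1 x : WeakDual 𝕜 E) -
      WeakDual.toStrongDual (x : WeakDual 𝕜 E) =
      τ • (WeakDual.toStrongDual (x₀ : WeakDual 𝕜 E) -
        WeakDual.toStrongDual (x : WeakDual 𝕜 E)) := by
    refine ContinuousLinearMap.ext fun e => ?_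
    change ((1 - τ) • (x : WeakDual 𝕜 E) e + τ • (x₀ : WeakDual 𝕜 E) e) -
      (x : WeakDual 𝕜 E) e = τ • ((x₀ : WeakDual 𝕜 E) e - (x : WeakDual 𝕜 E) e)
    rw [smul_sub, sub_smul, one_smul]
    abel
  rw [dualDist, h, norm_smul, Real.norm_eq_abs, abs_of_nonneg h0]
  exact le_rfl

end Dual

/-- Every semitopological semigroup `S` such that `LUC(S)` has a left invariant mean has property
(F_*), for real and for complex Banach spaces. -/
theorem result (S : Type u) [Semigroup S] [TopologicalSpace S] [SeparatelyContinuousMul S]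
    (hS : ∃ m : LUC S →ₗ[ℝ] ℝ, IsLeftInvariantMean m) (𝕜 : Type w) [RCLike 𝕜] :
    FStar.{u, v, w} 𝕜 S := by
  obtain ⟨m, hm⟩ := hS
  intro E _ _ _ C hne hconv hcomp T hT
  obtain ⟨Δ, hΔ⟩ := exists_dualDist_le hcomp
  obtain ⟨x₀, hx₀⟩ := hne
  have : CompactSpace C := isCompact_iff_compactSpace.mp hcomp
  have : Nonempty C := ⟨⟨x₀, hx₀⟩⟩
  have hn0 : ∀ n : ℕ, (0 : ℝ) ≤ 1 / (n + 1) := fun n => by positivity
  have hn1 : ∀ n : ℕ, (1 : ℝ) / (n + 1) ≤ 1 := fun n => by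
    rw [div_le_one (by positivity)]
    linarith [(Nat.cast_nonneg n : (0 : ℝ) ≤ n)]
  obtain ⟨x, hx⟩ := exists_fixed hm T hT.continuous hT.mul
    (d := fun x y : C => dualDist (x : WeakDual 𝕜 E) y) hT.nonexpansive (Δ := Δ)
    (fun x y => hΔ x x.2 y y.2)
    (fun n => contr hconv ⟨x₀, hx₀⟩ (1 / (n + 1)) (hn0 n) (hn1 n))
    (fun n x y => dualDist_contr hconv _ _ (hn0 n) (hn1 n) x y)
    (fun n x => (dualDist_contr_self hconv _ _ (hn0 n) (hn1 n) x).trans
      (mul_le_mul_of_nonneg_left (hΔ x₀ hx₀ x x.2) (hn0 n)))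
    (ι := E)
    (fun e => ⟨fun x : C => RCLike.re ((x : WeakDual 𝕜 E) e),
      RCLike.continuous_re.comp ((WeakDual.eval_continuous e).comp continuous_subtype_val)⟩)
    (fun e => ‖e‖) (fun e => norm_nonneg e) (fun e x y => by
      change |RCLike.re ((x : WeakDual 𝕜 E) e) - RCLike.re ((y : WeakDual 𝕜 E) e)| ≤ _
      rw [← map_sub]
      exact (RCLike.abs_re_le_norm _).trans (norm_eval_sub_le _ _ _))
  refine ⟨x, fun s => Subtype.ext ?_⟩
  refine DFunLike.ext _ _ fun e => ?_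
  have h1 : RCLike.re ((T s x : WeakDual 𝕜 E) e) = RCLike.re ((x : WeakDual 𝕜 E) e) := hx e s
  have h2 : RCLike.re ((T s x : WeakDual 𝕜 E) ((RCLike.I : 𝕜) • e)) =
      RCLike.re ((x : WeakDual 𝕜 E) ((RCLike.I : 𝕜) • e)) := hx _ s
  rw [map_smul (T s x : WeakDual 𝕜 E), map_smul (x : WeakDual 𝕜 E), smul_eq_mul,
    smul_eq_mul] at h2
  refine RCLike.ext h1 ?_
  simpa using h2

end Pool.Agent.Results.MP_f4bd1c_an.FStarProperty
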